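import Pool.Agent.FCK.MAINK
import Pool.Agent.FCK.UPPK
import Pool.Agent.FCK.INTK
import Pool.Agent.FCK.FAVK
import Pool.Agent.FCK.GEOM
import Pool.Agent.FCK.MKV
import Pool.Agent.FCK.IND
import Pool.Agent.FCK.TAIL3
import Pool.Agent.FCK.TQ
import Pool.Agent.FCK.SYMS
import Pool.Agent.FCK.SCLS
import Pool.Agent.FCK.RECK
import Pool.Agent.FCK.STRK
import Pool.Agent.FCK.STEP
import Pool.Agent.FCK.GEOK
import Pool.Agent.FCK.DISK
import Pool.Agent.FCK.MARK
import Pool.Agent.FCK.KERK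
import Pool.Agent.FCK.NUK
import Pool.Agent.FCK.SUMK
import Pool.Agent.FCK.CAPK
import Pool.Agent.FCK.GLIM
import Pool.Agent.FCK.FMON
import Pool.Agent.FCC.AVP
import Pool.Agent.FCC.MAXP

/-!
# Analytic capacity and Favard length of corner Cantor sets

`lam 0, lam 1, ..` are the ratios of a corner Cantor set, each equal to `1/4` or in
`[1/4 + δ, 1/2 - δ]`; `E lam n` is the `n`-th generation (`4 ^ n` closed squares of side
`lam 0 * .. * lam (n - 1)`), `Ei lam` the limit set, `th lam k = 1 / (4 ^ k * lam 0 * .. * lam (k - 1))`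
and `Th lam n = ∑_{k ≤ n} (th lam k) ^ 2`. `gam` is the analytic capacity and `Fav` the Favard length
(as in the problem). For the generations and for the limit set the Favard length is at most a constant
times `Th ^ (-1/2)`, the analytic capacity at least a constant times `Th ^ (-1/2)`; hence the inequality
`gam ≥ c Fav` of the problem holds for all these sets, with a constant depending only on `δ`.
-/

set_option autoImplicit false

namespace Pool.Agent.Results.MP_98e313_an.CornerCantor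

open Pool.Agent.FCC (gam Fav)
open Pool.Agent.FCK

theorem result : ∀ δ : ℝ, 0 < δ → ∃ c : ℝ, 0 < c ∧ ∀ lam : ℕ → ℝ,
    (∀ k, lam k = 1 / 4 ∨ (1 / 4 + δ ≤ lam k ∧ lam k ≤ 1 / 2 - δ)) →
    (∀ n, c * Fav (E lam n) ≤ 1 / √(Th lam n) ∧ c * (1 / √(Th lam n)) ≤ gam (E lam n)) ∧
    c * Fav (Ei lam) ≤ ⨅ n, 1 / √(Th lam n) ∧ c * (⨅ n, 1 / √(Th lam n)) ≤ gam (Ei lam) := by
  have hAVP := Pool.Agent.FCC.AVP_thm
  have hTAIL : Stmt_TAIL3 := TAIL3_thm TQ_thm SYMS_thm SCLS_thm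
  have hIND : Stmt_IND := IND_thm (STRK_thm RECK_thm) STEP_thm
  have hUPP : Stmt_UPPK :=
    UPPK_thm (INTK_thm (MKV_thm hTAIL hIND GEOM_thm)) (FAVK_thm GEOK_thm) GEOM_thm
  have hSUM : Stmt_SUMK := SUMK_thm hAVP (MARK_thm hAVP) (KERK_thm DISK_thm hAVP) NUK_thm
  have hCAP : Stmt_CAPK := CAPK_thm hSUM GEOK_thm DISK_thm Pool.Agent.FCC.MAXP_thm
  have hM : Stmt_MAINK := MAINK_thm hUPP hCAP GEOK_thm GLIM_thm FMON_thm
  intro δ hδ
  obtain ⟨c, hc, h⟩ := hM δ hδ
  refine ⟨c, hc, fun lam hlam => ?_⟩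
  obtain ⟨h1, h2, -⟩ := h lam hlam
  have hpos : Pos lam := Adm.pos' (δ := δ) hlam hδ
  have hbdd : BddBelow (Set.range fun n => 1 / √(Th lam n)) :=
    ⟨0, by rintro _ ⟨n, rfl⟩; positivity⟩
  refine ⟨h1, le_ciInf fun n => ?_, ?_⟩
  · exact (mul_le_mul_of_nonneg_left (h2 n) hc.le).trans (h1 n).1
  · refine GLIM_thm (E lam) _ (fun n => (GEOK_thm lam n hpos).2.2.2.1)
      (MAINK.E_anti lam fun n => (GEOK_thm lam n hpos).2.2.2.2.2) fun n => ?_
    exact (mul_le_mul_of_nonneg_left (ciInf_le hbdd n) hc.le).trans (h1 n).2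

end Pool.Agent.Results.MP_98e313_an.CornerCantor
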