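import Pool.Agent.NCP.Final

/-!
# MP_98e313_an: capacity and Favard length of sets with few components
-/

set_option autoImplicit false

namespace Pool.Agent.Results.MP_98e313_an.FewComponents

open MeasureTheory Set

/-- The analytic capacity. -/
noncomputable def analyticCapacity (E : Set ℂ) : ℝ :=
  sSup {r : ℝ | ∃ f : ℂ → ℂ, ∃ a : ℂ,
    DifferentiableOn ℂ f Eᶜ ∧
    (∀ z ∈ Eᶜ, ‖f z‖ ≤ 1) ∧
    Filter.Tendsto f (Filter.cocompact ℂ) (nhds 0) ∧
    Filter.Tendsto (fun z => z * f z) (Filter.cocompact ℂ) (nhds a) ∧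
    r = ‖a‖}

/-- The Favard length. -/
noncomputable def favardLength (E : Set ℂ) : ℝ :=
  ∫ θ in (0:ℝ)..Real.pi,
    (MeasureTheory.volume
      ((fun z : ℂ => (z * Complex.exp (-(θ : ℂ) * Complex.I)).re) '' E)).toReal

/-- The one dimensional Hausdorff content. -/
noncomputable def hausdorffContent (E : Set ℂ) : ℝ :=
  sInf {s : ℝ | ∃ U : ℕ → Set ℂ, E ⊆ ⋃ n, U n ∧ (∀ n, Bornology.IsBounded (U n)) ∧
    Summable (fun n => Metric.diam (U n)) ∧ s = ∑' n, Metric.diam (U n)}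

theorem result :
    ∃ C : ℝ, 0 < C ∧ ∀ (N : ℕ), 1 ≤ N → ∀ (E : Set ℂ) (K : Fin N → Set ℂ) (A t : ℝ),
      IsCompact E → (∀ i, IsCompact (K i)) → (∀ i, K i ⊆ E) → 1 ≤ A → 0 < t → t ≤ 1 →
      (∀ i, IsPreconnected (K i) ∨ t * Metric.diam (K i) ≤ analyticCapacity (K i)) →
      (∀ z ∈ E, ∃ i, ∃ x ∈ K i, ‖z - x‖ ≤ A * Metric.diam (K i)) →
      hausdorffContent E ≤ C * A * (√(1 + Real.log N) + 1 / t) * analyticCapacity E ∧
      favardLength E ≤ C * A * (√(1 + Real.log N) + 1 / t) * analyticCapacity E :=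
  NCP.final

end Pool.Agent.Results.MP_98e313_an.FewComponents
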