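import Pool.Agent.ANG.Fin
import Pool.Agent.ANL.CELL
import Pool.Agent.ANL.MISS
import Pool.Agent.ANL.TELE
import Pool.Agent.ANL.EXT
import Pool.Agent.ANL.FSUM
import Pool.Agent.ANL.SYM
import Pool.Agent.ANL.TAIL
import Pool.Agent.ANL.FIX
import Pool.Agent.ANL.MASS
import Pool.Agent.ANL.MAXM
import Pool.Agent.ANL.LIM
import Pool.Agent.ANL.FROST
import Pool.Agent.ANL.CHORD
import Pool.Agent.ANL.FAVC
import Pool.Agent.ANL.GEOM
import Pool.Agent.ANG.STRIP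
import Pool.Agent.ANG.CHAIN
import Pool.Agent.ANG.TRI
import Pool.Agent.ANG.HSUM
import Pool.Agent.ANG.TSUM
import Pool.Agent.ANG.EXS
import Pool.Agent.ANG.CL
import Pool.Agent.ANG.CARL
import Pool.Agent.ANG.GRID
import Pool.Agent.ANG.DOR
import Pool.Agent.ANG.GRA

/-!
# MP_98e313_an: capacity and Favard length of sets made of few pieces of curves
-/

set_option autoImplicit false

namespace Pool.Agent.Results.MP_98e313_an.FewCurves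

open MeasureTheory Set

/-- The analytic capacity. -/
noncomputable def analyticCapacity (E : Set ℂ) : ℝ :=
  sSup {r : ℝ | ∃ f : ℂ → ℂ, ∃ a : ℂ,
    DifferentiableOn ℂ f Eᶜ ∧
    (∀ z ∈ Eᶜ, ‖f z‖ ≤ 1) ∧
    Filter.Tendsto f (Filter.cocompact ℂ) (nhds 0) ∧
    Filter.Tendsto (fun z => z * f z) (Filter.cocompact ℂ) (nhds a) ∧
    r = ‖a‖}

/-- The Favard length. -/
noncomputable def favardLength (E : Set ℂ) : ℝ :=
  ∫ θ in (0:ℝ)..Real.pi,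
    (MeasureTheory.volume
      ((fun z : ℂ => (z * Complex.exp (-(θ : ℂ) * Complex.I)).re) '' E)).toReal

/-- The one dimensional Hausdorff content. -/
noncomputable def hausdorffContent (E : Set ℂ) : ℝ :=
  sInf {s : ℝ | ∃ U : ℕ → Set ℂ, E ⊆ ⋃ n, U n ∧ (∀ n, Bornology.IsBounded (U n)) ∧
    Summable (fun n => Metric.diam (U n)) ∧ s = ∑' n, Metric.diam (U n)}

/-- The dyadic square of side `2 ^ (-k)` with lower left corner `2 ^ (-k) P`. -/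
def square (k : ℤ) (P : ℤ × ℤ) : Set ℂ :=
  {z | ⌊(2 : ℝ) ^ k * z.re⌋ = P.1 ∧ ⌊(2 : ℝ) ^ k * z.im⌋ = P.2}

/-- The closed square with the same centre and three times the side. -/
def tripleSquare (k : ℤ) (P : ℤ × ℤ) : Set ℂ :=
  {z | (P.1 : ℝ) - 1 ≤ (2 : ℝ) ^ k * z.re ∧ (2 : ℝ) ^ k * z.re ≤ P.1 + 2 ∧
    (P.2 : ℝ) - 1 ≤ (2 : ℝ) ^ k * z.im ∧ (2 : ℝ) ^ k * z.im ≤ P.2 + 2}

/-- Jones' beta number: the least `δ` such that `G`, inside the threefold square, has distance at most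
`δ 2 ^ (-k)` from a line, the line through `a` with direction `v`. -/
noncomputable def betaNumber (G : Set ℂ) (k : ℤ) (P : ℤ × ℤ) : ℝ :=
  sInf {δ : ℝ | 0 ≤ δ ∧ ∃ a v : ℂ, ‖v‖ = 1 ∧ ∀ z ∈ G ∩ tripleSquare k P,
    |v.re * (z - a).im - v.im * (z - a).re| ≤ δ * (2 : ℝ) ^ (-k)}

/-- Jones' condition: for every finite set of dyadic squares `Q` which meet `G` and are contained in a
dyadic square `R` the sum of `β(Q)² ℓ(Q)` is at most `M ℓ(R)`. -/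
def JonesCondition (M : ℝ) (G : Set ℂ) : Prop :=
  ∀ (k₀ : ℤ) (P₀ : ℤ × ℤ) (S : Finset (ℤ × (ℤ × ℤ))),
    (∀ Q ∈ S, square Q.1 Q.2 ⊆ square k₀ P₀ ∧ (G ∩ square Q.1 Q.2).Nonempty) →
    ∑ Q ∈ S, betaNumber G Q.1 Q.2 ^ 2 * (2 : ℝ) ^ (-Q.1) ≤ M * (2 : ℝ) ^ (-k₀)

/-- The graph of `f`, rotated by `v`. -/
def graph (v : ℂ) (f : ℝ → ℝ) : Set ℂ := {z | ∃ x : ℝ, z = v * ((x : ℂ) + f x * Complex.I)}

theorem square_eq (k : ℤ) (P : ℤ × ℤ) : square k P = ANG.sq 0 k P := by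
  ext z
  simp [square, ANG.sq, ANL.cell, Prod.ext_iff]

theorem tripleSquare_eq (k : ℤ) (P : ℤ × ℤ) : tripleSquare k P = ANG.enl 0 k P := by
  ext z
  simp [tripleSquare, ANG.enl]

theorem betaNumber_eq (G : Set ℂ) (k : ℤ) (P : ℤ × ℤ) : betaNumber G k P = ANG.bet G 0 k P := by
  unfold betaNumber ANG.bet ANL.crs
  rw [tripleSquare_eq]

theorem jones_iff (M : ℝ) (G : Set ℂ) : JonesCondition M G ↔ ANG.Pack 0 M G := by
  unfold JonesCondition ANG.Pack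
  simp only [square_eq, betaNumber_eq]

theorem result :
    ∀ M : ℝ, ∃ c : ℝ, 0 < c ∧ ∀ (N : ℕ), 1 ≤ N → ∀ (E E₀ : Set ℂ) (Γ K : Fin N → Set ℂ),
      IsCompact E₀ → (∀ i, IsCompact (K i)) → (∀ i, Convex ℝ (K i)) → E₀ ⊆ ⋃ i, Γ i →
      (∀ i, (IsPreconnected (Γ i) ∧ JonesCondition M (Γ i)) ∨
        ∃ (f : ℝ → ℝ) (v : ℂ), ‖v‖ = 1 ∧ (∀ x y, |f x - f y| ≤ M * |x - y|) ∧
          Γ i = graph v f) →
      E = E₀ ∪ ⋃ i, K i →
      c * hausdorffContent E ≤ √(1 + Real.log N) * analyticCapacity E ∧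
        c * favardLength E ≤ √(1 + Real.log N) * analyticCapacity E := by
  have hSTRIP : ANG.Stmt_STRIP := ANG.STRIP_thm
  have hTRI : ANG.Stmt_TRI :=
    ANG.TRI_thm ANL.GEOM_thm ANL.CELL_thm hSTRIP (ANG.CHAIN_thm hSTRIP)
  have hTSUM : ANG.Stmt_TSUM := ANG.TSUM_thm ANL.CELL_thm hTRI ANG.HSUM_thm
  have hEXS : ANG.Stmt_EXS := ANG.EXS_thm ANL.CELL_thm hSTRIP
  have hCARL : ANG.Stmt_CARL := ANG.CARL_thm hSTRIP (ANG.CL_thm ANL.CELL_thm)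
  have hGRID : ANG.Stmt_GRID := ANG.GRID_thm ANL.CELL_thm hSTRIP
  have hGRA : ANG.Stmt_GRA := ANG.GRA_thm ANL.CELL_thm hSTRIP ANG.DOR_thm
  have hFSUM : ANL.Stmt_FSUM := ANL.FSUM_thm ANL.CELL_thm (ANL.TELE_thm ANL.MISS_thm) ANL.EXT_thm
  intro M
  obtain ⟨M', hM'⟩ := hGRA (max M 0) (le_max_right _ _)
  set B : ℝ := max (max M M') 0 with hB
  have hmono : ∀ (A : ℝ) (G : Set ℂ), A ≤ B → ANG.Pack 0 A G → ANG.Pack 0 B G := by
    intro A G hAB hG k₀ P₀ S hS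
    refine (hG k₀ P₀ S hS).trans ?_
    exact mul_le_mul_of_nonneg_right hAB (by positivity)
  obtain ⟨c, hc, h⟩ := ANG.main hSTRIP B (le_max_right _ _)
    (ANG.test B (ANG.curv ANL.CELL_thm hTSUM hFSUM hEXS hCARL hGRID B) ANL.SYM_thm ANL.TAIL_thm)
    (ANL.MASS_thm ANL.FIX_thm) (ANL.MAXM_thm ANL.TAIL_thm) ANL.LIM_thm
    (ANL.FROST_thm ANL.CELL_thm) ANL.CHORD_thm ANL.FAVC_thm
  refine ⟨c, hc, fun N hN E E₀ Γ K hE₀ hK hKc hΓ hG hE => ?_⟩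
  refine h N hN E E₀ Γ K hE₀ hK hKc hΓ (fun i => ?_) hE
  rcases hG i with ⟨h1, h2⟩ | ⟨f, v, hv, hf, hG⟩
  · exact ⟨h1, hmono M _ ((le_max_left _ _).trans (le_max_left _ _)) ((jones_iff _ _).1 h2)⟩
  · obtain ⟨h1, h2⟩ := hM' f v hv (fun x y => (hf x y).trans
      (mul_le_mul_of_nonneg_right (le_max_left _ _) (abs_nonneg _)))
    rw [hG]
    exact ⟨h1, hmono M' _ ((le_max_right _ _).trans (le_max_left _ _)) h2⟩

end Pool.Agent.Results.MP_98e313_an.FewCurves
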