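import Pool.Agent.RDX.All

/-!
# MP_98e313_an: random digit sets

Analytic capacity and Favard length of the generations of a self-similar set given by `L` digits of
`{0, .., L-1}²` in base `L`, for almost all choices of the digits as `L → ∞`.
-/

set_option autoImplicit false

namespace Pool.Agent.Results.MP_98e313_an.RandomDigits

open MeasureTheory Set

/-- The analytic capacity. -/
noncomputable def analyticCapacity (E : Set ℂ) : ℝ :=
  sSup {r : ℝ | ∃ f : ℂ → ℂ, ∃ a : ℂ,
    DifferentiableOn ℂ f Eᶜ ∧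
    (∀ z ∈ Eᶜ, ‖f z‖ ≤ 1) ∧
    Filter.Tendsto f (Filter.cocompact ℂ) (nhds 0) ∧
    Filter.Tendsto (fun z => z * f z) (Filter.cocompact ℂ) (nhds a) ∧
    r = ‖a‖}

/-- The Favard length. -/
noncomputable def favardLength (E : Set ℂ) : ℝ :=
  ∫ θ in (0:ℝ)..Real.pi,
    (MeasureTheory.volume
      ((fun z : ℂ => (z * Complex.exp (-(θ : ℂ) * Complex.I)).re) '' E)).toReal

/-- The `n`-th generation for the set `D` of digits in base `L`: the unit square for `n = 0`, and
the union over `(a, b) ∈ D` of the copies `(E + a + b i) / L` of the `n`-th generation `E` for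
`n + 1`. -/
def generation (L : ℕ) (D : Finset (ℕ × ℕ)) : ℕ → Set ℂ
  | 0 => {z : ℂ | 0 ≤ z.re ∧ z.re ≤ 1 ∧ 0 ≤ z.im ∧ z.im ≤ 1}
  | n + 1 => ⋃ d ∈ D,
      (fun z : ℂ => (z + ((d.1 : ℂ) + (d.2 : ℂ) * Complex.I)) / (L : ℂ)) '' generation L D n

/-- The `L`-element subsets of `{0, .., L-1}²`. -/
def digitSets (L : ℕ) : Finset (Finset (ℕ × ℕ)) :=
  (Finset.range L ×ˢ Finset.range L).powersetCard L

/-- For all `n ≥ 1` the Favard length of the `n`-th generation is at most `n ^ (-1 + ε) / c` and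
its analytic capacity is at least `c n ^ (-1/2)`. -/
def Good (ε : ℝ) (L : ℕ) (D : Finset (ℕ × ℕ)) : Prop :=
  ∃ c : ℝ, 0 < c ∧ ∀ n : ℕ, 1 ≤ n →
    c * favardLength (generation L D n) ≤ (n : ℝ) ^ (-1 + ε) ∧
    c / √n ≤ analyticCapacity (generation L D n)

theorem generation_eq (L : ℕ) (D : Finset (ℕ × ℕ)) (n : ℕ) :
    generation L D n = Pool.Agent.RDS.gens L D n := by
  induction n with
  | zero => rfl
  | succ n ih =>
    show (⋃ d ∈ D, (fun z : ℂ => (z + ((d.1 : ℂ) + (d.2 : ℂ) * Complex.I)) / (L : ℂ)) ''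
      generation L D n) = ⋃ d ∈ D,
      (fun z : ℂ => (z + ((d.1 : ℂ) + (d.2 : ℂ) * Complex.I)) / (L : ℂ)) ''
        Pool.Agent.RDS.gens L D n
    rw [ih]

theorem good_iff (ε : ℝ) (L : ℕ) (D : Finset (ℕ × ℕ)) :
    Good ε L D ↔ Pool.Agent.RDX.GoodX ε L D := by
  unfold Good Pool.Agent.RDX.GoodX
  simp only [generation_eq]
  rfl

open Classical in
theorem result (ε : ℝ) (hε : 0 < ε) :
    Filter.Tendsto (fun L : ℕ =>
        (((digitSets L).filter fun D => Good ε L D).card : ℝ) / ((digitSets L).card : ℝ))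
      Filter.atTop (nhds 1) := by
  have h := Pool.Agent.RDX.final
  unfold Pool.Agent.RDX.Stmt_FNX at h
  refine (h ε hε).congr fun L => ?_
  have e : ((Pool.Agent.RDS.digitSets L).filter fun D => Pool.Agent.RDX.GoodX ε L D) =
      (digitSets L).filter fun D => Good ε L D := by
    ext D
    simp only [Finset.mem_filter, good_iff]
    rfl
  rw [e]
  rfl

end Pool.Agent.Results.MP_98e313_an.RandomDigits
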